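import Mathlib

/-!
# The coordinate ring of `y ^ 2 = x ^ 3 + a * x + b`

`El a b p q` is the element `p + q * y`. Elements with infinitely many zeros vanish; coordinates of a
nonconstant map have a nonzero minor, which can be specialized.
-/

set_option autoImplicit false

namespace Pool.Agent.Q103.AR

open Polynomial WeierstrassCurve.Affine

/-- the curve `y ^ 2 = x ^ 3 + a * x + b` -/
def wc {R : Type} [CommRing R] (a b : R) : WeierstrassCurve.Affine R := ⟨0, 0, 0, a, b⟩

/-- the element `p + q * y` of the coordinate ring -/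
noncomputable def El {R : Type} [CommRing R] (a b : R) (p q : R[X]) : (wc a b).CoordinateRing :=
  p • (1 : (wc a b).CoordinateRing) + q • CoordinateRing.mk (wc a b) X

theorem exists_el {R : Type} [CommRing R] {a b : R} (z : (wc a b).CoordinateRing) :
    ∃ p q, El a b p q = z := CoordinateRing.exists_smul_basis_eq z

theorem el_zero {R : Type} [CommRing R] {a b : R} {p q : R[X]} (h : El a b p q = 0) :
    p = 0 ∧ q = 0 := CoordinateRing.smul_basis_eq_zero h

/-- the evaluation at a point of the curve -/
noncomputable def ev {R S : Type} [CommRing R] [CommRing S] (g : R →+* S) {a b : R} {s t : S}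
    (h : t ^ 2 = s ^ 3 + g a * s + g b) : (wc a b).CoordinateRing →+* S :=
  AdjoinRoot.lift (eval₂RingHom g s) t (by
    rw [WeierstrassCurve.Affine.polynomial]
    simp only [wc, map_zero, zero_mul, add_zero, eval₂_sub, eval₂_add, eval₂_pow, eval₂_mul,
      eval₂_X, eval₂_C, coe_eval₂RingHom]
    rw [h]
    ring)

theorem ev_el {R S : Type} [CommRing R] [CommRing S] (g : R →+* S) {a b : R} {s t : S}
    (h : t ^ 2 = s ^ 3 + g a * s + g b) (p q : R[X]) :
    ev g h (El a b p q) = p.eval₂ g s + q.eval₂ g s * t := by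
  have h1 : ∀ r : R[X], ev g h (CoordinateRing.mk (wc a b) (C r)) = r.eval₂ g s := fun r => by
    unfold ev
    rw [AdjoinRoot.lift_mk, eval₂_C, coe_eval₂RingHom]
  have h2 : ev g h (CoordinateRing.mk (wc a b) X) = t := by
    unfold ev
    rw [AdjoinRoot.lift_mk, eval₂_X]
  unfold El
  rw [CoordinateRing.smul, CoordinateRing.smul, mul_one, map_add, map_mul, h1, h1, h2]

/-- the change of coefficients -/
noncomputable def mp {R S : Type} [CommRing R] [CommRing S] (g : R →+* S) (a b : R) :
    (wc a b).CoordinateRing →+* (wc (g a) (g b)).CoordinateRing :=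
  AdjoinRoot.lift ((AdjoinRoot.of _).comp <| mapRingHom g) (AdjoinRoot.root _)
    (by
      rw [← eval₂_map]
      have : (wc a b).polynomial.map (mapRingHom g) = (wc (g a) (g b)).polynomial := by
        simp [WeierstrassCurve.Affine.polynomial, wc]
      rw [this, AdjoinRoot.eval₂_root])

theorem mp_el {R S : Type} [CommRing R] [CommRing S] (g : R →+* S) (a b : R) (p q : R[X]) :
    mp g a b (El a b p q) = El (g a) (g b) (p.map g) (q.map g) := by
  have h1 : ∀ r : R[X], mp g a b (CoordinateRing.mk (wc a b) (C r)) =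
      CoordinateRing.mk (wc (g a) (g b)) (C (r.map g)) := fun r => by
    unfold mp
    rw [AdjoinRoot.lift_mk, eval₂_C]
    rfl
  have h2 : mp g a b (CoordinateRing.mk (wc a b) X) = CoordinateRing.mk (wc (g a) (g b)) X := by
    unfold mp
    rw [AdjoinRoot.lift_mk, eval₂_X]
    rfl
  unfold El
  rw [CoordinateRing.smul, CoordinateRing.smul, mul_one, map_add, map_mul, h1, h1, h2,
    CoordinateRing.smul, CoordinateRing.smul, mul_one]

theorem mp_injective {R S : Type} [CommRing R] [CommRing S] {g : R →+* S}
    (hg : Function.Injective g) (a b : R) : Function.Injective (mp g a b) := by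
  refine (injective_iff_map_eq_zero _).mpr fun z hz => ?_
  obtain ⟨p, q, rfl⟩ := exists_el z
  rw [mp_el] at hz
  obtain ⟨hp, hq⟩ := el_zero hz
  rw [Polynomial.map_eq_zero_iff hg] at hp hq
  rw [hp, hq, El, zero_smul, zero_smul, add_zero]

/-- The norm of a nonzero element does not vanish. -/
theorem zero_of_norm {F : Type} [Field F] {a b : F} {p q : F[X]}
    (h : p ^ 2 - q ^ 2 * (X ^ 3 + C a * X + C b) = 0) : p = 0 ∧ q = 0 := by
  have hN : Algebra.norm F[X] (El a b p q) = p ^ 2 - q ^ 2 * (X ^ 3 + C a * X + C b) := by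
    unfold El
    rw [CoordinateRing.norm_smul_basis]
    simp only [wc, map_zero]
    ring
  have hz : Algebra.norm F[X] (El a b p q) = 0 := by rw [hN, h]
  have hd := CoordinateRing.degree_norm_smul_basis (W' := wc a b) p q
  unfold El at hz
  rw [hz, degree_zero] at hd
  have h3 := le_max_left (2 • p.degree) (2 • q.degree + 3)
  have h4 := le_max_right (2 • p.degree) (2 • q.degree + 3)
  rw [← hd] at h3 h4
  constructor
  · rw [← degree_eq_bot]
    by_contra hp
    obtain ⟨n, hn⟩ := WithBot.ne_bot_iff_exists.mp hp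
    rw [← hn, le_bot_iff] at h3
    exact absurd h3 (by rw [← WithBot.coe_nsmul]; exact WithBot.coe_ne_bot)
  · rw [← degree_eq_bot]
    by_contra hp
    obtain ⟨n, hn⟩ := WithBot.ne_bot_iff_exists.mp hp
    rw [← hn, le_bot_iff] at h4
    exact absurd h4 (by
      rw [← WithBot.coe_nsmul]
      exact WithBot.coe_ne_bot (a := 2 • n + 3))

/-- An element with infinitely many zeros vanishes. -/
theorem zero_of_infinite {F : Type} [Field F] {a b : F} {p q : F[X]}
    (h : {s : F | ∃ t, t ^ 2 = s ^ 3 + a * s + b ∧ p.eval s + q.eval s * t = 0}.Infinite) :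
    p = 0 ∧ q = 0 := by
  refine zero_of_norm (a := a) (b := b) (Polynomial.eq_zero_of_infinite_isRoot _ (h.mono ?_))
  rintro s ⟨t, h1, h2⟩
  simp only [Set.mem_ofPred_eq, IsRoot.def, eval_sub, eval_pow, eval_mul, eval_add, eval_X, eval_C]
  rw [← h1]
  linear_combination (p.eval s - q.eval s * t) * h2

/-- the coefficients of `p + q * y` -/
noncomputable def cf {R : Type} [CommRing R] (w : R[X] × R[X]) (s : Bool × ℕ) : R :=
  if s.1 then w.1.coeff s.2 else w.2.coeff s.2

theorem cf_map {R S : Type} [CommRing R] [CommRing S] (g : R →+* S) (w : R[X] × R[X])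
    (s : Bool × ℕ) : cf (w.1.map g, w.2.map g) s = g (cf w s) := by
  unfold cf
  split_ifs
  · simp only [coeff_map]
  · simp only [coeff_map]

theorem cf_ext {R : Type} [CommRing R] {w z : R[X] × R[X]} (h : ∀ s, cf w s = cf z s) : w = z := by
  refine Prod.ext ?_ ?_
  · ext n
    simpa [cf] using h (true, n)
  · ext n
    simpa [cf] using h (false, n)

/-- the minors of two coordinates -/
noncomputable def mn {R : Type} [CommRing R] (w z : R[X] × R[X]) (s t : Bool × ℕ) : R :=
  cf w s * cf z t - cf w t * cf z s

theorem mn_map {R S : Type} [CommRing R] [CommRing S] (g : R →+* S) (w z : R[X] × R[X])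
    (s t : Bool × ℕ) :
    mn (w.1.map g, w.2.map g) (z.1.map g, z.2.map g) s t = g (mn w z s t) := by
  unfold mn
  rw [cf_map, cf_map, cf_map, cf_map, map_sub, map_mul, map_mul]

/-- If all minors vanish, the coordinates are proportional. -/
theorem prop_of_mn {F : Type} [Field F] {w z : F[X] × F[X]} (hz : z ≠ 0)
    (h : ∀ s t, mn w z s t = 0) : ∃ c : F, w = (C c * z.1, C c * z.2) := by
  obtain ⟨t, ht⟩ : ∃ t, cf z t ≠ 0 := by
    by_contra hcon
    push Not at hcon
    refine hz (cf_ext fun s => ?_)
    rw [hcon s]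
    simp [cf]
  refine ⟨cf w t / cf z t, cf_ext fun s => ?_⟩
  have h1 := h s t
  unfold mn at h1
  have h2 : cf (C (cf w t / cf z t) * z.1, C (cf w t / cf z t) * z.2) s =
      cf w t / cf z t * cf z s := by
    unfold cf
    split_ifs <;> simp only [coeff_C_mul]
  rw [h2, div_mul_eq_mul_div, eq_div_iff ht]
  linear_combination h1

/-- A nonzero minor excludes linear relations. -/
theorem rel_of_mn {F : Type} [Field F] {w z : F[X] × F[X]} {s t : Bool × ℕ}
    (h : mn w z s t ≠ 0) {c d : F} (h1 : C c * w.1 = C d * z.1) (h2 : C c * w.2 = C d * z.2) :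
    c = 0 := by
  have h3 : ∀ r, c * cf w r = d * cf z r := fun r => by
    unfold cf
    split_ifs
    · have := congrArg (fun P => coeff P r.2) h1
      simpa only [coeff_C_mul] using this
    · have := congrArg (fun P => coeff P r.2) h2
      simpa only [coeff_C_mul] using this
  have h4 : c * mn w z s t = 0 := by
    unfold mn
    linear_combination cf z t * h3 s - cf z s * h3 t
  exact (mul_eq_zero.mp h4).resolve_right h

end Pool.Agent.Q103.AR
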