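import Mathlib

/-!
# Infinitely many points of a cubic `y ^ 2 = x ^ 3 + a * x + b` over some number field

Duplication makes the `2`-adic absolute value of a large coordinate `x` grow.
-/

set_option autoImplicit false

namespace Pool.Agent.Q103.AR

section norm

variable {Ω : Type} [NormedField Ω] [IsUltrametricDist Ω]

private theorem nadd {u w : Ω} (h : ‖w‖ < ‖u‖) : ‖u + w‖ = ‖u‖ := by
  rw [IsUltrametricDist.norm_add_eq_max_of_norm_ne_norm h.ne', max_eq_left h.le]

/-- Duplication of a point with a large coordinate `x` multiplies its norm by four. -/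
theorem dbl (h2 : ‖(2 : Ω)‖ = 1 / 2) {a b x y : Ω} (hxy : y ^ 2 = x ^ 3 + a * x + b)
    (h1 : 1 < ‖x‖) (ha : ‖a‖ < ‖x‖) (hb : ‖b‖ < ‖x‖) :
    y ≠ 0 ∧ ‖((3 * x ^ 2 + a) / (2 * y)) ^ 2 - 2 * x‖ = 4 * ‖x‖ := by
  have hx : 0 < ‖x‖ := by linarith
  have hn1 : ‖(2 : Ω)‖ ≤ 1 := by rw [h2]; norm_num
  have e1 : ‖a * x + b‖ < ‖x ^ 3‖ := by
    rw [norm_pow]
    refine lt_of_le_of_lt (IsUltrametricDist.norm_add_le_max _ _) (max_lt ?_ ?_)
    · rw [norm_mul]; nlinarith [mul_pos hx hx]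
    · nlinarith [mul_pos hx hx]
  have ey : ‖y ^ 2‖ = ‖x‖ ^ 3 := by
    rw [hxy, add_assoc, nadd e1, norm_pow]
  have hy : y ≠ 0 := by
    rintro rfl
    rw [zero_pow two_ne_zero, norm_zero] at ey
    exact absurd ey.symm (pow_pos hx 3).ne'
  refine ⟨hy, ?_⟩
  have h20 : (2 : Ω) ≠ 0 := by
    intro h
    rw [h, norm_zero] at h2
    norm_num at h2
  have e2 : ((3 * x ^ 2 + a) / (2 * y)) ^ 2 - 2 * x =
      (x ^ 4 + (-(2 * (a * x ^ 2)) + (-(2 ^ 3 * (b * x)) + a ^ 2))) / (2 ^ 2 * y ^ 2) := by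
    rw [div_pow, eq_div_iff (by positivity), sub_mul, mul_pow, div_mul_cancel₀ _ (by positivity)]
    rw [hxy]
    ring
  have e3 : ‖-(2 * (a * x ^ 2)) + (-(2 ^ 3 * (b * x)) + a ^ 2)‖ < ‖x ^ 4‖ := by
    have hx2 : ‖x‖ * ‖x‖ < ‖x‖ ^ 4 := by
      have : 1 < ‖x‖ * ‖x‖ := by nlinarith
      nlinarith [mul_pos hx hx]
    rw [norm_pow]
    refine lt_of_le_of_lt (IsUltrametricDist.norm_add_le_max _ _) (max_lt ?_ ?_)
    · rw [norm_neg, norm_mul, norm_mul, norm_pow]
      have : ‖(2 : Ω)‖ * (‖a‖ * ‖x‖ ^ 2) ≤ 1 * (‖x‖ * ‖x‖ ^ 2) := by gcongr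
      have h3 : ‖x‖ * ‖x‖ ^ 2 < ‖x‖ ^ 4 := by
        have : 0 < ‖x‖ ^ 3 := by positivity
        nlinarith
      linarith
    · refine lt_of_le_of_lt (IsUltrametricDist.norm_add_le_max _ _) (max_lt ?_ ?_)
      · rw [norm_neg, norm_mul, norm_mul, norm_pow]
        have h3 : ‖(2 : Ω)‖ ^ 3 ≤ 1 := pow_le_one₀ (norm_nonneg _) hn1
        have : ‖(2 : Ω)‖ ^ 3 * (‖b‖ * ‖x‖) ≤ 1 * (‖x‖ * ‖x‖) := by gcongr
        linarith
      · rw [norm_pow]
        have : ‖a‖ ^ 2 ≤ ‖x‖ ^ 2 := by gcongr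
        nlinarith
  rw [e2, norm_div, nadd e3, norm_mul, ey, norm_pow, norm_pow, h2]
  field_simp
  norm_num

end norm

/-- The coordinates of the double of a point. -/
noncomputable def stp {F : Type} [Field F] (a : F) (P : F × F) : F × F :=
  (((3 * P.1 ^ 2 + a) / (2 * P.2)) ^ 2 - 2 * P.1,
    ((3 * P.1 ^ 2 + a) / (2 * P.2)) * (P.1 - (((3 * P.1 ^ 2 + a) / (2 * P.2)) ^ 2 - 2 * P.1)) - P.2)

theorem stp_eq {F : Type} [Field F] [CharZero F] {a b : F} {P : F × F}
    (h : P.2 ^ 2 = P.1 ^ 3 + a * P.1 + b) (hy : P.2 ≠ 0) :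
    (stp a P).2 ^ 2 = (stp a P).1 ^ 3 + a * (stp a P).1 + b := by
  obtain ⟨x, y⟩ := P
  simp only at h hy
  unfold stp
  simp only
  obtain ⟨l, hl⟩ : ∃ l, l = (3 * x ^ 2 + a) / (2 * y) := ⟨_, rfl⟩
  rw [← hl]
  have h2 : (2 : F) ≠ 0 := two_ne_zero
  have e : l * (2 * y) = 3 * x ^ 2 + a := by
    rw [hl, div_mul_cancel₀ _ (mul_ne_zero h2 hy)]
  have hb : b = y ^ 2 - x ^ 3 - a * x := by linear_combination -h
  rw [hb]
  have ha : a = l * (2 * y) - 3 * x ^ 2 := by linear_combination -e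
  rw [ha]
  ring

/-- Over some finite extension of a number field the equation `y ^ 2 = x ^ 3 + a * x + b` has
infinitely many solutions. -/
theorem exists_points (L : Type) [Field L] [NumberField L] (a b : L) :
    ∃ (L' : Type) (_ : Field L') (_ : NumberField L') (_ : Algebra L L') (Q : ℕ → L' × L'),
      (∀ n, (Q n).2 ^ 2 = (Q n).1 ^ 3 + algebraMap L L' a * (Q n).1 + algebraMap L L' b) ∧
      Function.Injective fun n => (Q n).1 := by
  classical
  have : Fact (Nat.Prime 2) := ⟨Nat.prime_two⟩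
  let Ω := PadicAlgCl 2
  let j0 : L →ₐ[ℚ] Ω := IsAlgClosed.lift
  let _ : Algebra L Ω := j0.toRingHom.toAlgebra
  have h2 : ‖(2 : Ω)‖ = 1 / 2 := by
    have h := PadicAlgCl.norm_extends 2 (2 : ℚ_[2])
    have h' : ((2 : ℚ_[2]) : PadicAlgCl 2) = (2 : PadicAlgCl 2) := map_ofNat _ 2
    rw [h'] at h
    change ‖(2 : PadicAlgCl 2)‖ = 1 / 2
    rw [h]
    have := Padic.norm_p (p := 2)
    simpa using this
  obtain ⟨N, hN⟩ : ∃ N : ℕ, max 1 (max ‖algebraMap L Ω a‖ ‖algebraMap L Ω b‖) < 2 ^ N :=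
    pow_unbounded_of_one_lt _ (by norm_num)
  let s0 : Ω := (2 : Ω)⁻¹ ^ N
  have hs0 : ‖s0‖ = 2 ^ N := by
    change ‖(2 : Ω)⁻¹ ^ N‖ = 2 ^ N
    rw [norm_pow, norm_inv, h2]
    norm_num
  obtain ⟨t0, ht0⟩ := IsAlgClosed.exists_pow_nat_eq (s0 ^ 3 + algebraMap L Ω a * s0 +
    algebraMap L Ω b) (n := 2) (by norm_num)
  have hint : IsIntegral L t0 := by
    refine IsIntegral.of_pow (n := 2) (by norm_num) ?_
    rw [ht0]
    have : s0 = algebraMap L Ω ((2 : L)⁻¹ ^ N) := by
      simp only [s0, map_pow, map_inv₀, map_ofNat]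
    rw [this, ← map_pow, ← map_mul, ← map_add, ← map_add]
    exact isIntegral_algebraMap
  let L' := IntermediateField.adjoin L {t0}
  have hfin : FiniteDimensional L L' := IntermediateField.adjoin.finiteDimensional hint
  have hQ : FiniteDimensional ℚ L' := FiniteDimensional.trans ℚ L L'
  have : NumberField L' := ⟨⟩
  let P0 : L' × L' := ((2 : L')⁻¹ ^ N, ⟨t0, IntermediateField.subset_adjoin L _ rfl⟩)
  have hj : ∀ z : L', (algebraMap L' Ω z) = (z : Ω) := fun _ => rfl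
  have key : ∀ n : ℕ, (((stp (algebraMap L L' a))^[n] P0).2 ^ 2 =
      ((stp (algebraMap L L' a))^[n] P0).1 ^ 3 + algebraMap L L' a *
      ((stp (algebraMap L L' a))^[n] P0).1 + algebraMap L L' b) ∧
      ‖algebraMap L' Ω ((stp (algebraMap L L' a))^[n] P0).1‖ = 4 ^ n * 2 ^ N := by
    intro n
    induction n with
    | zero =>
      refine ⟨?_, ?_⟩
      · apply (algebraMap L' Ω).injective
        simp only [Function.iterate_zero, id, P0, map_pow, map_add, map_mul, map_inv₀, map_ofNat]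
        rw [← IsScalarTower.algebraMap_apply, ← IsScalarTower.algebraMap_apply]
        exact ht0
      · simp only [Function.iterate_zero, id, P0, map_pow, map_inv₀, map_ofNat, pow_zero, one_mul]
        exact hs0
    | succ n ih =>
      obtain ⟨ih1, ih2⟩ := ih
      rw [Function.iterate_succ', Function.comp_apply]
      set P := (stp (algebraMap L L' a))^[n] P0 with hP
      have h4 : (1 : ℝ) ≤ 4 ^ n := one_le_pow₀ (by norm_num)
      have hbig : max 1 (max ‖algebraMap L Ω a‖ ‖algebraMap L Ω b‖) < ‖algebraMap L' Ω P.1‖ := by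
        rw [ih2]
        have : (0 : ℝ) < 2 ^ N := by positivity
        nlinarith
      have hd := dbl (Ω := Ω) h2 (a := algebraMap L Ω a) (b := algebraMap L Ω b)
        (x := algebraMap L' Ω P.1) (y := algebraMap L' Ω P.2) (by
          have := congrArg (algebraMap L' Ω) ih1
          simp only [map_pow, map_add, map_mul] at this
          rw [← IsScalarTower.algebraMap_apply, ← IsScalarTower.algebraMap_apply] at this
          exact this)
        (lt_of_le_of_lt (le_max_left _ _) hbig)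
        (lt_of_le_of_lt ((le_max_left _ _).trans (le_max_right _ _)) hbig)
        (lt_of_le_of_lt ((le_max_right _ _).trans (le_max_right _ _)) hbig)
      have hy : P.2 ≠ 0 := by
        intro h
        exact hd.1 (by rw [h, map_zero])
      refine ⟨stp_eq ih1 hy, ?_⟩
      have he : algebraMap L' Ω (stp (algebraMap L L' a) P).1 =
          ((3 * (algebraMap L' Ω P.1) ^ 2 + algebraMap L Ω a) / (2 * algebraMap L' Ω P.2)) ^ 2 -
            2 * algebraMap L' Ω P.1 := by
        simp only [stp, map_pow, map_add, map_mul, map_sub, map_div₀, map_ofNat]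
        rw [← IsScalarTower.algebraMap_apply]
      rw [he, hd.2, ih2, pow_succ]
      ring
  refine ⟨L', inferInstance, inferInstance, inferInstance,
    fun n => (stp (algebraMap L L' a))^[n] P0, fun n => (key n).1, ?_⟩
  intro m n hmn
  have h1 := (key m).2
  have h2' := (key n).2
  simp only at hmn
  rw [hmn, h2'] at h1
  have h3 : (4 : ℝ) ^ n = 4 ^ m := mul_right_cancel₀ (by positivity) h1
  exact (pow_right_injective₀ (by norm_num) (by norm_num) h3).symm

end Pool.Agent.Q103.AR
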