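import Mathlib

/-!
# Specialization of finitely generated domains to finite extensions of the ground field
-/

set_option autoImplicit false

namespace Pool.Agent.Q103.AR

/-- A nonzero element of a finitely generated domain over a field `k` has a nonzero image in some
finite extension of `k`. -/
theorem exists_spec (k R : Type) [Field k] [CommRing R] [IsDomain R] [Algebra k R]
    [Algebra.FiniteType k R] (δ : R) (hδ : δ ≠ 0) :
    ∃ (L : Type) (_ : Field L) (_ : Algebra k L) (_ : FiniteDimensional k L) (φ : R →ₐ[k] L),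
      φ δ ≠ 0 := by
  have hJ : IsJacobsonRing R := isJacobsonRing_of_finiteType (A := k)
  have h1 : (⊥ : Ideal R).jacobson = ⊥ := by
    rw [← Ideal.radical_eq_jacobson]
    exact (Ideal.isPrime_bot (α := R)).radical
  have h2 : δ ∉ (⊥ : Ideal R).jacobson := by
    rw [h1]
    simpa using hδ
  obtain ⟨m, hm, hδm⟩ : ∃ m : Ideal R, m.IsMaximal ∧ δ ∉ m := by
    by_contra hcon
    push Not at hcon
    apply h2
    rw [Ideal.jacobson, Ideal.mem_sInf]
    rintro m ⟨-, hm⟩
    exact hcon m hm
  let _ : Field (R ⧸ m) := Ideal.Quotient.field m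
  have : Algebra.FiniteType k (R ⧸ m) :=
    Algebra.FiniteType.of_surjective (Ideal.Quotient.mkₐ k m) (Ideal.Quotient.mkₐ_surjective k m)
  have hfin : Module.Finite k (R ⧸ m) := finite_of_finite_type_of_isJacobsonRing k (R ⧸ m)
  refine ⟨R ⧸ m, inferInstance, inferInstance, hfin, Ideal.Quotient.mkₐ k m, ?_⟩
  rw [Ideal.Quotient.mkₐ_eq_mk, Ne, Ideal.Quotient.eq_zero_iff_mem]
  exact hδm

end Pool.Agent.Q103.AR
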