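import Pool.Agent.Q103.AR.Crd
import Pool.Agent.Q103.AR.Spec
import Pool.Agent.W602.GT.Gm

/-!
# Maps from an elliptic curve in terms of the coordinate ring, and their specializations
-/

set_option autoImplicit false

namespace Pool.Agent.Q103.AR

open Polynomial WeierstrassCurve.Affine
open Pool.Agent.W602.GT (IsForm val val_smul)

section field

variable {Om E : Type} [Field Om] [Field E] [Algebra Om E] {x y : E} {a b : Om}

theorem trans_x (hxy : y ^ 2 = x ^ 3 + algebraMap Om E a * x + algebraMap Om E b)
    (htop : IntermediateField.adjoin Om {x, y} = ⊤) (htr : ∃ z : E, Transcendental Om z) :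
    Transcendental Om x := by
  intro hx
  obtain ⟨z, hz⟩ := htr
  apply hz
  have hxi : IsIntegral Om x := hx.isIntegral
  have hyi : IsIntegral Om y := by
    refine IsIntegral.of_pow (n := 2) (by norm_num) ?_
    rw [hxy]
    exact ((hxi.pow 3).add (isIntegral_algebraMap.mul hxi)).add isIntegral_algebraMap
  have hle : IntermediateField.adjoin Om {x, y} ≤ algebraicClosure Om E := by
    rw [IntermediateField.adjoin_le_iff]
    rintro s (rfl | hs)
    · exact mem_algebraicClosure_iff.mpr hx
    · rw [Set.mem_singleton_iff] at hs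
      rw [hs]
      exact mem_algebraicClosure_iff.mpr hyi.isAlgebraic
  have hz' : z ∈ algebraicClosure Om E := hle (by rw [htop]; trivial)
  exact mem_algebraicClosure_iff.mp hz'

theorem ev_injective (hxy : y ^ 2 = x ^ 3 + algebraMap Om E a * x + algebraMap Om E b)
    (hx : Transcendental Om x) : Function.Injective (ev (algebraMap Om E) hxy) := by
  refine (injective_iff_map_eq_zero _).mpr fun z hz => ?_
  obtain ⟨p, q, rfl⟩ := exists_el z
  rw [ev_el] at hz
  have h1 : p ^ 2 - q ^ 2 * (X ^ 3 + C a * X + C b) = 0 := by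
    by_contra hne
    refine hx ⟨_, hne, ?_⟩
    simp only [map_sub, map_pow, map_mul, map_add, aeval_X, aeval_C]
    rw [← hxy, aeval_def, aeval_def]
    linear_combination (p.eval₂ (algebraMap Om E) x - q.eval₂ (algebraMap Om E) x * y) * hz
  obtain ⟨hp, hq⟩ := zero_of_norm h1
  rw [hp, hq, El, zero_smul, zero_smul, add_zero]

/-- All elements of the function field are quotients of elements of the coordinate ring. -/
theorem exists_quot (hxy : y ^ 2 = x ^ 3 + algebraMap Om E a * x + algebraMap Om E b)
    (hx : Transcendental Om x) (htop : IntermediateField.adjoin Om {x, y} = ⊤) {n : ℕ}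
    (v : Fin n → E) : ∃ (D : E) (w : Fin n → Om[X] × Om[X]), D ≠ 0 ∧
      ∀ i, ev (algebraMap Om E) hxy (El a b (w i).1 (w i).2) = D * v i := by
  classical
  have hinj := ev_injective hxy hx
  let CR := (wc a b).CoordinateRing
  let lf : FractionRing CR →+* E := IsFractionRing.lift (g := ev (algebraMap Om E) hxy) hinj
  have hlf : ∀ z : CR, lf (algebraMap CR (FractionRing CR) z) = ev (algebraMap Om E) hxy z :=
    fun z => IsFractionRing.lift_algebraMap hinj z
  have hc : ∀ c : Om, ev (algebraMap Om E) hxy (El a b (C c) 0) = algebraMap Om E c := fun c => by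
    rw [ev_el, eval₂_C, eval₂_zero, zero_mul, add_zero]
  let S : IntermediateField Om E := Subfield.toIntermediateField lf.fieldRange fun c => by
    rw [← hc c, ← hlf]
    exact ⟨_, rfl⟩
  have hS : S = ⊤ := by
    rw [eq_top_iff, ← htop, IntermediateField.adjoin_le_iff]
    rintro s (rfl | hs)
    · have h1 : ev (algebraMap Om E) hxy (El a b X 0) = s := by
        rw [ev_el, eval₂_X, eval₂_zero, zero_mul, add_zero]
      change s ∈ lf.fieldRange
      rw [← h1, ← hlf]
      exact ⟨_, rfl⟩
    · rw [Set.mem_singleton_iff] at hs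
      rw [hs]
      have h1 : ev (algebraMap Om E) hxy (El a b 0 1) = y := by
        rw [ev_el, eval₂_zero, eval₂_one, one_mul, zero_add]
      change y ∈ lf.fieldRange
      rw [← h1, ← hlf]
      exact ⟨_, rfl⟩
  have hsurj : ∀ z : E, ∃ f, lf f = z := by
    intro z
    have hz : z ∈ S := by rw [hS]; trivial
    exact hz
  choose f hf using fun i => hsurj (v i)
  obtain ⟨d, hd⟩ := IsLocalization.exist_integer_multiples_of_finite
    (nonZeroDivisors CR) f
  choose c hc' using hd
  choose p q hpq using fun i => exists_el (c i)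
  refine ⟨lf (algebraMap CR (FractionRing CR) d), fun i => (p i, q i), ?_, fun i => ?_⟩
  · rw [Ne, map_eq_zero_iff lf lf.injective]
    exact IsLocalization.to_map_ne_zero_of_mem_nonZeroDivisors _ le_rfl d.2
  · simp only
    rw [hpq, ← hf i, ← map_mul, ← hlf, hc' i, Algebra.smul_def]

end field

theorem algebraMap_el {R : Type} [CommRing R] (a b c : R) :
    algebraMap R (wc a b).CoordinateRing c = El a b (C c) 0 := by
  rw [El, zero_smul, add_zero, Algebra.algebraMap_eq_smul_one, ← Polynomial.algebraMap_eq]
  exact (algebraMap_smul R[X] c (1 : (wc a b).CoordinateRing)).symm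

/-- the constants from `k` in the coordinate ring -/
noncomputable def kap (k : Type) [Field k] {R : Type} [CommRing R] [Algebra k R] (a b : R) :
    k →+* (wc a b).CoordinateRing := (algebraMap R (wc a b).CoordinateRing).comp (algebraMap k R)

/-- the value of a polynomial over `k` at a tuple of elements of the coordinate ring -/
noncomputable def evk {k : Type} [Field k] {R : Type} [CommRing R] [Algebra k R] {M : ℕ} (a b : R)
    (w : Fin (M + 1) → R[X] × R[X]) (G : MvPolynomial (Fin (M + 1)) k) :
    (wc a b).CoordinateRing :=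
  MvPolynomial.eval₂ (kap k a b) (fun i => El a b (w i).1 (w i).2) G

theorem mp_evk {k : Type} [Field k] {R S : Type} [CommRing R] [Algebra k R] [CommRing S] [Algebra k S]
    (g : R →ₐ[k] S) {M : ℕ} (a b : R) (w : Fin (M + 1) → R[X] × R[X])
    (G : MvPolynomial (Fin (M + 1)) k) :
    mp g.toRingHom a b (evk a b w G) = evk (g.toRingHom a) (g.toRingHom b)
      (fun i => ((w i).1.map g.toRingHom, (w i).2.map g.toRingHom)) G := by
  unfold evk
  rw [MvPolynomial.eval₂_comp_left]
  congr 1
  · ext c
    rw [RingHom.comp_apply]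
    unfold kap
    rw [RingHom.comp_apply, RingHom.comp_apply, algebraMap_el, mp_el, algebraMap_el, map_C,
      Polynomial.map_zero]
    congr 2
    exact g.commutes c
  · funext l
    rw [Function.comp_apply, mp_el]

/-- **Spreading out.** A solution over the field `Om` comes from a finitely generated ring over `k`. -/
theorem spread {k Om : Type} [Field k] [Field Om] [Algebra k Om] {M : ℕ} (a b : Om)
    (w : Fin (M + 1) → Om[X] × Om[X]) :
    ∃ (R : Type) (_ : CommRing R) (_ : IsDomain R) (_ : Algebra k R) (_ : Algebra.FiniteType k R)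
      (g : R →ₐ[k] Om) (_ : Function.Injective g) (a₀ b₀ : R) (w₀ : Fin (M + 1) → R[X] × R[X]),
      g.toRingHom a₀ = a ∧ g.toRingHom b₀ = b ∧
      ∀ i, w i = ((w₀ i).1.map g.toRingHom, (w₀ i).2.map g.toRingHom) := by
  classical
  let T : Finset Om := {a, b} ∪ Finset.univ.biUnion fun i => (w i).1.coeffs ∪ (w i).2.coeffs
  let R : Subalgebra k Om := Algebra.adjoin k (T : Set Om)
  have hT : ∀ c ∈ T, c ∈ R := fun c hc => Algebra.subset_adjoin hc
  have hft : Algebra.FiniteType k R := by
    rw [← Subalgebra.fg_iff_finiteType]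
    exact Subalgebra.fg_adjoin_finset T
  have hcoe : ∀ (p : Om[X]), (∀ c ∈ p.coeffs, c ∈ R) → ∃ p₀ : R[X],
      p = p₀.map R.val.toRingHom := by
    intro p hp
    have h1 : p ∈ lifts R.val.toRingHom := by
      rw [lifts_iff_coeff_lifts]
      intro n
      by_cases hn : p.coeff n = 0
      · exact ⟨0, by rw [hn, map_zero]⟩
      · exact ⟨⟨p.coeff n, hp _ (coeff_mem_coeffs hn)⟩, rfl⟩
    obtain ⟨p₀, hp₀⟩ := (mem_lifts p).mp h1
    exact ⟨p₀, hp₀.symm⟩
  have hw : ∀ i, ∃ y : R[X] × R[X], w i = (y.1.map R.val.toRingHom, y.2.map R.val.toRingHom) := by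
    intro i
    obtain ⟨p, hp⟩ := hcoe (w i).1 fun c hc => hT c (Finset.mem_union_right _
      (Finset.mem_biUnion.mpr ⟨i, Finset.mem_univ i, Finset.mem_union_left _ hc⟩))
    obtain ⟨q, hq⟩ := hcoe (w i).2 fun c hc => hT c (Finset.mem_union_right _
      (Finset.mem_biUnion.mpr ⟨i, Finset.mem_univ i, Finset.mem_union_right _ hc⟩))
    exact ⟨(p, q), Prod.ext hp hq⟩
  choose w₀ hw₀ using hw
  exact ⟨R, inferInstance, inferInstance, inferInstance, hft, R.val, Subtype.val_injective,
    ⟨a, hT a (by simp [T])⟩, ⟨b, hT b (by simp [T])⟩, w₀, rfl, rfl, hw₀⟩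

end Pool.Agent.Q103.AR
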