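import Pool.Agent.Q103.AR.Crd
import Pool.Agent.W602.GT.Gm

/-!
# Infinitely many points on the image of the curve `y ^ 2 = x ^ 3 + a * x + b`
-/

set_option autoImplicit false

namespace Pool.Agent.Q103.AR

open Polynomial WeierstrassCurve.Affine
open Pool.Agent.W602.GT (IsForm val_smul)
open scoped LinearAlgebra.Projectivization

/-- The points with coordinates in the extension `L` of `k` of the projective variety over `k` defined
by the forms `F e`. -/
def Points {k : Type} [Field k] {M : ℕ} {ι : Type} (F : ι → MvPolynomial (Fin (M + 1)) k)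
    (L : Type) [Field L] [Algebra k L] : Set (ℙ L (Fin (M + 1) → L)) :=
  {P | ∀ e, MvPolynomial.aeval P.rep (F e) = 0}

theorem aeval_smul_form {k L : Type} [Field k] [Field L] [Algebra k L] {M d : ℕ}
    {G : MvPolynomial (Fin (M + 1)) k} (hG : G.IsHomogeneous d) (c : L) (u : Fin (M + 1) → L) :
    MvPolynomial.aeval (fun i => c * u i) G = c ^ d * MvPolynomial.aeval u G :=
  val_smul hG c u

/-- The main step: a nonconstant map `w = (p i + q i * y)` from the curve to the variety, with
coefficients in a ring `R`, yields infinitely many points over each field `L` with a homomorphism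
`φ : R → L` which does not kill some certificates and with infinitely many points on the curve. -/
theorem inf_points {k R L : Type} [Field k] [CommRing R] [Algebra k R] [Field L] [Algebra k L]
    {M : ℕ} {ι : Type} (F : ι → MvPolynomial (Fin (M + 1)) k) (hF : ∀ e, IsForm (F e))
    (G : MvPolynomial (Fin (M + 1)) k) (hG : IsForm G)
    (φ : R →ₐ[k] L) (a b : R) (w : Fin (M + 1) → R[X] × R[X])
    (κ : k →+* (wc a b).CoordinateRing)
    (hκ : ∀ c, κ c = algebraMap R (wc a b).CoordinateRing (algebraMap k R c))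
    (h0 : ∀ e, MvPolynomial.eval₂ κ (fun i => El a b (w i).1 (w i).2) (F e) = 0)
    (z : R[X] × R[X]) (hz : MvPolynomial.eval₂ κ (fun i => El a b (w i).1 (w i).2) G = El a b z.1 z.2)
    (r : Bool × ℕ) (hr : φ (cf z r) ≠ 0) (i j : Fin (M + 1)) (r₁ r₂ : Bool × ℕ)
    (hm : φ (mn (w i) (w j) r₁ r₂) ≠ 0) (Q : ℕ → L × L)
    (hQ : ∀ n, (Q n).2 ^ 2 = (Q n).1 ^ 3 + φ a * (Q n).1 + φ b)
    (hinj : Function.Injective fun n => (Q n).1) :
    {P | P ∈ Points F L ∧ MvPolynomial.aeval P.rep G ≠ 0}.Infinite := by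
  classical
  -- the points
  obtain ⟨g, hg⟩ : ∃ g : R →+* L, g = φ.toRingHom := ⟨_, rfl⟩
  have hg' : ∀ x, φ x = g x := fun x => by rw [hg]; rfl
  have hQ' : ∀ n, (Q n).2 ^ 2 = (Q n).1 ^ 3 + g a * (Q n).1 + g b := fun n => by
    rw [hQ n, hg', hg']
  obtain ⟨u, hu⟩ : ∃ u : ℕ → Fin (M + 1) → L, ∀ n l, u n l =
      (w l).1.eval₂ g (Q n).1 + (w l).2.eval₂ g (Q n).1 * (Q n).2 := ⟨_, fun _ _ => rfl⟩
  have hval : ∀ n (H : MvPolynomial (Fin (M + 1)) k), MvPolynomial.aeval (u n) H =
      ev g (hQ' n) (MvPolynomial.eval₂ κ (fun i => El a b (w i).1 (w i).2) H) := by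
    intro n H
    rw [MvPolynomial.eval₂_comp_left, MvPolynomial.aeval_def]
    congr 1
    · ext c
      rw [RingHom.comp_apply, hκ, ← φ.commutes c, hg']
      have h1 : algebraMap R (wc a b).CoordinateRing (algebraMap k R c) =
          El a b (C (algebraMap k R c)) 0 := by
        rw [El, zero_smul, add_zero, Algebra.algebraMap_eq_smul_one, ← Polynomial.algebraMap_eq]
        exact (algebraMap_smul R[X] (algebraMap k R c) (1 : (wc a b).CoordinateRing)).symm
      rw [h1, ev_el, eval₂_C, eval₂_zero, zero_mul, add_zero]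
    · funext l
      rw [hu, Function.comp_apply, ev_el]
  -- the zeros of an element
  have hfin : ∀ p q : R[X], (p.map g ≠ 0 ∨ q.map g ≠ 0) →
      {n | p.eval₂ g (Q n).1 + q.eval₂ g (Q n).1 * (Q n).2 = 0}.Finite := by
    intro p q hpq
    by_contra hcon
    have h1 : {s : L | ∃ t, t ^ 2 = s ^ 3 + g a * s + g b ∧
        (p.map g).eval s + (q.map g).eval s * t = 0}.Infinite := by
      refine Set.Infinite.mono ?_ (Set.Infinite.image (f := fun n => (Q n).1)
        (hinj.injOn) (show ({n | p.eval₂ g (Q n).1 + q.eval₂ g (Q n).1 * (Q n).2 = 0}).Infinite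
          from hcon))
      rintro s ⟨n, hn, rfl⟩
      refine ⟨(Q n).2, hQ' n, ?_⟩
      rw [eval_map, eval_map]
      exact hn
    obtain ⟨h2, h3⟩ := zero_of_infinite h1
    rcases hpq with h | h
    · exact h h2
    · exact h h3
  have hcfz : ∀ y : R[X] × R[X], ∀ s, g (cf y s) ≠ 0 → y.1.map g ≠ 0 ∨ y.2.map g ≠ 0 := by
    intro y s hs
    by_contra hcon
    push Not at hcon
    apply hs
    rw [← cf_map, hcon.1, hcon.2]
    simp [cf]
  have hm' : mn ((w i).1.map g, (w i).2.map g) ((w j).1.map g, (w j).2.map g) r₁ r₂ ≠ 0 := by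
    rw [mn_map, ← hg']
    exact hm
  have hwj : (w j).1.map g ≠ 0 ∨ (w j).2.map g ≠ 0 := by
    by_contra hcon
    push Not at hcon
    apply hm'
    rw [hcon.1, hcon.2]
    simp [mn, cf]
  -- the bad indices
  have hB1 : {n | MvPolynomial.aeval (u n) G = 0}.Finite := by
    refine (hfin z.1 z.2 (hcfz z r (by rw [← hg']; exact hr))).subset fun n hn => ?_
    have h1 : MvPolynomial.aeval (u n) G = 0 := hn
    rw [hval, hz, ev_el] at h1
    exact h1
  have hB2 : {n | u n j = 0}.Finite := by
    refine (hfin (w j).1 (w j).2 hwj).subset fun n hn => ?_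
    have h1 : u n j = 0 := hn
    rw [hu] at h1
    exact h1
  by_contra hcon
  rw [Set.not_infinite] at hcon
  have hfib : ∀ P : ℙ L (Fin (M + 1) → L), {n | u n j ≠ 0 ∧ ∃ c : L, u n = fun l => c * P.rep l}.Finite := by
    intro P
    by_cases hPj : P.rep j = 0
    · refine Set.Finite.subset Set.finite_empty ?_
      rintro n ⟨h1, c, h2⟩
      exact h1 (by rw [h2]; simp [hPj])
    have hne : ¬ (C (P.rep j) * (w i).1.map g = C (P.rep i) * (w j).1.map g ∧
        C (P.rep j) * (w i).2.map g = C (P.rep i) * (w j).2.map g) := fun h =>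
      hPj (rel_of_mn hm' h.1 h.2)
    by_contra hinf
    have h1 : {s : L | ∃ t, t ^ 2 = s ^ 3 + g a * s + g b ∧
        (C (P.rep j) * (w i).1.map g - C (P.rep i) * (w j).1.map g).eval s +
        (C (P.rep j) * (w i).2.map g - C (P.rep i) * (w j).2.map g).eval s * t = 0}.Infinite := by
      refine Set.Infinite.mono ?_ (Set.Infinite.image (f := fun n => (Q n).1)
        (hinj.injOn) (show ({n | u n j ≠ 0 ∧ ∃ c : L, u n = fun l => c * P.rep l}).Infinite
          from hinf))
      rintro s ⟨n, ⟨-, c, hn⟩, rfl⟩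
      refine ⟨(Q n).2, hQ' n, ?_⟩
      have h3 := hu n i
      have h4 := hu n j
      rw [hn] at h3 h4
      simp only at h3 h4
      rw [← eval_map, ← eval_map] at h3 h4
      simp only [eval_sub, eval_mul, eval_C]
      linear_combination P.rep i * h4 - P.rep j * h3
    obtain ⟨h2, h3⟩ := zero_of_infinite h1
    exact hne ⟨sub_eq_zero.mp h2, sub_eq_zero.mp h3⟩
  have hall : (Set.univ : Set ℕ) ⊆ {n | MvPolynomial.aeval (u n) G = 0} ∪ {n | u n j = 0} ∪
      ⋃ P ∈ {P | P ∈ Points F L ∧ MvPolynomial.aeval P.rep G ≠ 0},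
        {n | u n j ≠ 0 ∧ ∃ c : L, u n = fun l => c * P.rep l} := by
    intro n _
    by_cases h1 : MvPolynomial.aeval (u n) G = 0
    · exact Or.inl (Or.inl h1)
    by_cases h2 : u n j = 0
    · exact Or.inl (Or.inr h2)
    refine Or.inr ?_
    have hne : u n ≠ 0 := fun h => h2 (by rw [h]; rfl)
    obtain ⟨c, hc⟩ := Projectivization.exists_smul_eq_mk_rep L (u n) hne
    have hrep : u n = fun l => (c : L)⁻¹ * (Projectivization.mk L (u n) hne).rep l := by
      funext l
      rw [← hc, Pi.smul_apply, Units.smul_def, smul_eq_mul, inv_mul_cancel_left₀ c.ne_zero]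
    have hrep' : (Projectivization.mk L (u n) hne).rep = fun l => (c : L) * u n l := by
      rw [← hc]
      rfl
    simp only [Set.mem_iUnion]
    refine ⟨Projectivization.mk L (u n) hne, ⟨?_, ?_⟩, h2, (c : L)⁻¹, hrep⟩
    · intro e
      obtain ⟨d, hd⟩ := hF e
      rw [hrep', aeval_smul_form hd, hval, h0, map_zero, mul_zero]
    · obtain ⟨d, hd⟩ := hG
      rw [hrep', aeval_smul_form hd]
      exact mul_ne_zero (pow_ne_zero _ c.ne_zero) h1
  have := ((hB1.union hB2).union (hcon.biUnion fun P _ => hfib P)).subset hall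
  exact Set.infinite_univ this

end Pool.Agent.Q103.AR
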