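import Pool.Agent.Q103.AR.Ell
import Pool.Agent.Q103.AR.Pts
import Pool.Agent.Q103.AR.Dbl

/-!
# Rational points from elliptic curves

If the projective variety `F = 0` over the number field `k` contains the image of a nonconstant map from
an elliptic curve over an extension field, not contained in the hypersurface `G = 0`, then it has
infinitely many points outside `G = 0` over some finite extension of `k`.
-/

set_option autoImplicit false

namespace Pool.Agent.Q103.AR

open Polynomial WeierstrassCurve.Affine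
open Pool.Agent.W602.GT (IsForm val val_smul)
open scoped LinearAlgebra.Projectivization

theorem ev_evk {k Om E : Type} [Field k] [Field Om] [Algebra k Om] [Field E] [Algebra Om E] {M : ℕ}
    {x y : E} {a b : Om} (hxy : y ^ 2 = x ^ 3 + algebraMap Om E a * x + algebraMap Om E b)
    (w : Fin (M + 1) → Om[X] × Om[X]) (u : Fin (M + 1) → E)
    (hu : ∀ i, ev (algebraMap Om E) hxy (El a b (w i).1 (w i).2) = u i)
    (G : MvPolynomial (Fin (M + 1)) k) :
    ev (algebraMap Om E) hxy (evk a b w G) = val u (MvPolynomial.map (algebraMap k Om) G) := by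
  unfold evk val
  rw [MvPolynomial.eval₂_comp_left, MvPolynomial.aeval_def, MvPolynomial.eval₂_map]
  congr 1
  · ext c
    rw [RingHom.comp_apply]
    unfold kap
    rw [RingHom.comp_apply, algebraMap_el, ev_el, eval₂_C, eval₂_zero, zero_mul, add_zero,
      RingHom.comp_apply]
  · funext l
    rw [Function.comp_apply, hu]

/-- The certificates for a nonconstant map from an elliptic curve. -/
theorem cert {k Om E : Type} [Field k] [Field Om] [Algebra k Om] [Field E] [Algebra Om E] {M : ℕ}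
    {ι : Type} (F : ι → MvPolynomial (Fin (M + 1)) k) (hF : ∀ e, IsForm (F e))
    (G : MvPolynomial (Fin (M + 1)) k) (hG : IsForm G)
    {x y : E} {a b : Om} (hd : 4 * a ^ 3 + 27 * b ^ 2 ≠ 0)
    (hxy : y ^ 2 = x ^ 3 + algebraMap Om E a * x + algebraMap Om E b)
    (htop : IntermediateField.adjoin Om {x, y} = ⊤) (v : Fin (M + 1) → E) (i j : Fin (M + 1))
    (hvj : v j ≠ 0) (htr : Transcendental Om (v i / v j))
    (hFv : ∀ e, val v (MvPolynomial.map (algebraMap k Om) (F e)) = 0)
    (hGv : val v (MvPolynomial.map (algebraMap k Om) G) ≠ 0) :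
    ∃ (R : Type) (_ : CommRing R) (_ : IsDomain R) (_ : Algebra k R) (_ : Algebra.FiniteType k R)
      (a b : R) (w : Fin (M + 1) → R[X] × R[X]) (z : R[X] × R[X]) (r r₁ r₂ : Bool × ℕ),
      (∀ e, evk a b w (F e) = 0) ∧ evk a b w G = El a b z.1 z.2 ∧ cf z r ≠ 0 ∧
      mn (w i) (w j) r₁ r₂ ≠ 0 ∧ 4 * a ^ 3 + 27 * b ^ 2 ≠ 0 := by
  classical
  have hx := trans_x hxy htop ⟨_, htr⟩
  have hinj := ev_injective hxy hx
  obtain ⟨D, w, hD, hw⟩ := exists_quot hxy hx htop v
  have hev : ∀ H : MvPolynomial (Fin (M + 1)) k, ev (algebraMap Om E) hxy (evk a b w H) =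
      val (fun i => D * v i) (MvPolynomial.map (algebraMap k Om) H) :=
    fun H => ev_evk hxy w _ hw H
  have hFw : ∀ e, evk a b w (F e) = 0 := by
    intro e
    obtain ⟨d, hd'⟩ := hF e
    apply hinj
    rw [hev, val_smul (hd'.map _), hFv, mul_zero, map_zero]
  have hGw : evk a b w G ≠ 0 := by
    intro h
    obtain ⟨d, hd'⟩ := hG
    have h1 := hev G
    rw [h, map_zero, val_smul (hd'.map _)] at h1
    exact mul_ne_zero (pow_ne_zero _ hD) hGv h1.symm
  have hmn : ∃ r₁ r₂, mn (w i) (w j) r₁ r₂ ≠ 0 := by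
    by_contra hcon
    push Not at hcon
    have hwj : w j ≠ 0 := by
      intro h
      have h1 := hw j
      rw [h] at h1
      simp only [Prod.fst_zero, Prod.snd_zero] at h1
      rw [ev_el, Polynomial.eval₂_zero, zero_mul, add_zero] at h1
      exact mul_ne_zero hD hvj h1.symm
    obtain ⟨c, hc⟩ := prop_of_mn hwj hcon
    have h1 := hw i
    have h2 := hw j
    rw [hc] at h1
    rw [ev_el] at h1 h2
    simp only [eval₂_mul, eval₂_C] at h1
    have h3 : v i = algebraMap Om E c * v j := by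
      apply mul_left_cancel₀ hD
      rw [← h1]
      linear_combination algebraMap Om E c * h2
    apply htr
    rw [h3, mul_div_assoc, div_self hvj, mul_one]
    exact isAlgebraic_algebraMap c
  obtain ⟨R, i1, i2, i3, i4, g, hg, a₀, b₀, w₀, rfl, rfl, hw₀⟩ := spread (k := k) a b w
  have hwf : w = fun i => ((w₀ i).1.map g.toRingHom, (w₀ i).2.map g.toRingHom) := funext hw₀
  have hgi : Function.Injective g.toRingHom := hg
  have hmi := mp_injective hgi a₀ b₀
  rw [hwf] at hFw hGw
  obtain ⟨z1, z2, hz⟩ := exists_el (evk a₀ b₀ w₀ G)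
  have hzc : ∃ r, cf (z1, z2) r ≠ 0 := by
    by_contra hcon
    push Not at hcon
    have h1 : ((z1, z2) : R[X] × R[X]) = 0 := cf_ext fun s => by rw [hcon s]; simp [cf]
    have h2 : z1 = 0 := congrArg Prod.fst h1
    have h3 : z2 = 0 := congrArg Prod.snd h1
    apply hGw
    rw [← mp_evk g a₀ b₀ w₀ G, ← hz, h2, h3, El, zero_smul, zero_smul, add_zero, map_zero]
  obtain ⟨r, hr⟩ := hzc
  obtain ⟨r₁, r₂, hr'⟩ := hmn
  refine ⟨R, i1, i2, i3, i4, a₀, b₀, w₀, (z1, z2), r, r₁, r₂, ?_, hz.symm, hr, ?_, ?_⟩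
  · intro e
    apply hmi
    rw [mp_evk g a₀ b₀ w₀ (F e), map_zero]
    exact hFw e
  · intro h
    apply hr'
    rw [hw₀, hw₀, mn_map, h, map_zero]
  · intro h
    apply hd
    have := congrArg g.toRingHom h
    simpa only [map_add, map_mul, map_pow, map_ofNat, map_zero] using this

/-- **Rational points from elliptic curves.** -/
theorem infinite_of_elliptic {k Om E : Type} [Field k] [NumberField k] [Field Om] [Algebra k Om]
    [Field E] [Algebra Om E] {M : ℕ} {ι : Type} (F : ι → MvPolynomial (Fin (M + 1)) k)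
    (hF : ∀ e, IsForm (F e)) (G : MvPolynomial (Fin (M + 1)) k) (hG : IsForm G)
    {x y : E} {a b : Om} (hd : 4 * a ^ 3 + 27 * b ^ 2 ≠ 0)
    (hxy : y ^ 2 = x ^ 3 + algebraMap Om E a * x + algebraMap Om E b)
    (htop : IntermediateField.adjoin Om {x, y} = ⊤) (v : Fin (M + 1) → E) (i j : Fin (M + 1))
    (hvj : v j ≠ 0) (htr : Transcendental Om (v i / v j))
    (hFv : ∀ e, val v (MvPolynomial.map (algebraMap k Om) (F e)) = 0)
    (hGv : val v (MvPolynomial.map (algebraMap k Om) G) ≠ 0) :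
    ∃ (L : Type) (_ : Field L) (_ : NumberField L) (_ : Algebra k L),
      {P | P ∈ Points F L ∧ MvPolynomial.aeval P.rep G ≠ 0}.Infinite := by
  obtain ⟨R, i1, i2, i3, i4, a₀, b₀, w, z, r, r₁, r₂, h1, h2, h3, h4, -⟩ :=
    cert F hF G hG hd hxy htop v i j hvj htr hFv hGv
  obtain ⟨L₁, j1, j2, j3, φ₁, hφ₁⟩ := exists_spec k R (cf z r * mn (w i) (w j) r₁ r₂)
    (mul_ne_zero h3 h4)
  have hch : CharZero L₁ := charZero_of_injective_algebraMap (algebraMap k L₁).injective
  have hfin : FiniteDimensional ℚ L₁ := FiniteDimensional.trans ℚ k L₁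
  have hnf : NumberField L₁ := ⟨⟩
  obtain ⟨L, k1, k2, k3, Q, hQ, hQi⟩ := exists_points L₁ (φ₁ a₀) (φ₁ b₀)
  let _ : Algebra k L := ((algebraMap L₁ L).comp (algebraMap k L₁)).toAlgebra
  let φ : R →ₐ[k] L :=
    { (algebraMap L₁ L).comp φ₁.toRingHom with
      commutes' := fun c => by
        change algebraMap L₁ L (φ₁ (algebraMap k R c)) = algebraMap L₁ L (algebraMap k L₁ c)
        rw [φ₁.commutes] }
  have hφ : ∀ c, φ c = algebraMap L₁ L (φ₁ c) := fun _ => rfl
  rw [map_mul] at hφ₁
  have h5 := left_ne_zero_of_mul hφ₁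
  have h6 := right_ne_zero_of_mul hφ₁
  exact ⟨L, k1, k2, inferInstance, inf_points F hF G hG φ a₀ b₀ w (kap k a₀ b₀) (fun _ => rfl) h1 z h2 r
    (by rw [hφ, map_ne_zero_iff _ (algebraMap L₁ L).injective]; exact h5) i j r₁ r₂
    (by rw [hφ, map_ne_zero_iff _ (algebraMap L₁ L).injective]; exact h6) Q hQ hQi⟩

end Pool.Agent.Q103.AR
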