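import Pool.Agent.Q103.AR.Main
import Pool.Agent.Q103.SF.Fin2

/-!
# Rational points and special sets
-/

set_option autoImplicit false
set_option linter.overlappingInstances false

namespace Pool.Agent.Q103.AR

open FF Metric
open Pool.Agent.W602.GT
open Pool.Agent.Y221.PD
open Pool.Agent.Y221.BD (EntireCurve)
open Pool.Agent.Y216 (OnVar)
open Pool.Agent.Q271.RC (Nonconst)
open Pool.Agent.TH466.QG (SubOf)
open Pool.Agent.Q103.KO (IsPoint SameP Chain)
open Pool.Agent.Q103.SF
open scoped LinearAlgebra.Projectivization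

/-- The projective variety `X` over `k` is defined by the forms `F e`, and the complex variety `X_σ`,
defined by the forms `σ (F e)`, is the integral variety with the generic point `x`: the forms `σ (F e)`
vanish at `x`, and each common zero `a ≠ 0` of these forms is a point of the variety with the generic
point `x`. -/
structure IsModel {k : Type} [Field k] (σ : k →+* ℂ) {M : ℕ} {ι : Type}
    (F : ι → MvPolynomial (Fin (M + 1)) k) {K : Type} [Field K] [Algebra ℂ K]
    (x : Fin (M + 1) → K) : Prop where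
  form : ∀ e, IsForm (F e)
  zero : ∀ e, val x (MvPolynomial.map σ (F e)) = 0
  all : ∀ a : Fin (M + 1) → ℂ, a ≠ 0 →
    (∀ e, MvPolynomial.eval a (MvPolynomial.map σ (F e)) = 0) → IsPoint x a

/-- The curves of genus `≤ 1` lie in each closed subset `G = 0` defined over `k` which contains all but
finitely many `L`-rational points, for all `L`. -/
theorem low_of_finite {k : Type} [Field k] [NumberField k] (σ : k →+* ℂ) {M : ℕ} {ι κ : Type}
    {F : ι → MvPolynomial (Fin (M + 1)) k} {K : Type} [Field K] [Algebra ℂ K]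
    {x : Fin (M + 1) → K} (hF : IsModel σ F x) (hS : SpecialSets x)
    {G : κ → MvPolynomial (Fin (M + 1)) k} (hG : ∀ j, IsForm (G j))
    (h : ∀ (L : Type) [Field L] [NumberField L] [Algebra k L], (Points F L \ Points G L).Finite) :
    ∀ V ∈ lowCurves x, ∀ j, MvPolynomial.map σ (G j) ∈ V := by
  intro V hV j
  obtain ⟨E, i1, i2, i3, v, hE, hv, hn, rfl⟩ := hS.elliptic V hV
  by_contra hcon
  let _ : Algebra k ℂ := σ.toAlgebra
  have hGf : IsForm (MvPolynomial.map σ (G j)) := by
    obtain ⟨d, hd⟩ := hG j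
    exact ⟨d, hd.map σ⟩
  have h1 : val v (MvPolynomial.map (algebraMap k ℂ) (G j)) ≠ 0 := fun h0 => hcon ⟨hGf, h0⟩
  have h2 : ∀ e, val v (MvPolynomial.map (algebraMap k ℂ) (F e)) = 0 := by
    intro e
    obtain ⟨d, hd⟩ := hF.form e
    exact hv.2 _ ⟨d, hd.map σ⟩ (hF.zero e)
  obtain ⟨a, b, X, Y, hab, hXY, htop⟩ := hE
  obtain ⟨i, l, hl, htr⟩ := hn
  obtain ⟨L, j1, j2, j3, hinf⟩ := infinite_of_elliptic (k := k) (Om := ℂ) F hF.form (G j) (hG j) hab
    hXY htop v i l hl htr h2 h1
  refine hinf ((h L).subset ?_)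
  rintro P ⟨hP, hP'⟩
  exact ⟨hP, fun hP'' => hP' (hP'' j)⟩

/-- If all sets of `L`-rational points are finite, there are no curves of genus `≤ 1`. -/
theorem low_empty {k : Type} [Field k] [NumberField k] (σ : k →+* ℂ) {M : ℕ} {ι : Type}
    {F : ι → MvPolynomial (Fin (M + 1)) k} {K : Type} [Field K] [Algebra ℂ K]
    {x : Fin (M + 1) → K} (hF : IsModel σ F x) (hS : SpecialSets x)
    (h : ∀ (L : Type) [Field L] [NumberField L] [Algebra k L], (Points F L).Finite) :
    lowCurves x = ∅ := by
  rw [Set.eq_empty_iff_forall_notMem]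
  intro V hV
  have h1 := low_of_finite σ hF hS (κ := Unit) (G := fun _ => 1)
    (fun _ => ⟨0, MvPolynomial.isHomogeneous_one _ _⟩)
    (fun L _ _ _ => (h L).subset Set.sdiff_subset) V hV ()
  obtain ⟨E, i1, i2, i3, v, -, -, -, rfl⟩ := hS.elliptic V hV
  have h2 : val v (MvPolynomial.map σ (1 : MvPolynomial (Fin (M + 1)) k)) = 0 := h1.2
  rw [map_one] at h2
  unfold val at h2
  rw [map_one] at h2
  exact one_ne_zero h2

end Pool.Agent.Q103.AR
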